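import Pool.Agent.H93.ET.Defs

/-!
# The exact growth threshold (MP_de9001_an, board `gth_modules`), row DSJ: the classes are disjoint
-/

set_option autoImplicit false

namespace Pool.Agent.H54.ET

open Finset Pool.Agent.H87.Synth Pool.Agent.H85.SC Pool.Agent.H93.ET

section

variable {d : ℕ → ℝ} (D : Dat d)

/-- `m` is a window of level `k` -/
private def Wi (k m : ℕ) : Prop := D.mu k ≤ m ∧ m < D.mu (k + 1)

open Classical in
/-- the class of the emitting points of window `m` of level `k` -/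
private noncomputable def nxt (k m : ℕ) (s : Bool) : Cl :=
  if m + 1 < D.mu (k + 1) then Cl.blk k (m + 1) s else Cl.gad k s

/-- the class of a point -/
private def PC (k : ℕ) (t i : ℤ) (s : Bool) (c : Cl) : Prop :=
  (∃ m, Wi D k m ∧ t ∈ D.T k m ∧
    ((i = iA (D.g k t) ∧ c = Cl.blk k m s) ∨ (i = iE (D.g k t) ∧ c = nxt D k m s))) ∨
  ((∀ m, Wi D k m → t ∉ D.T k m) ∧ c = Cl.par k t s)

/-- the class of an element of a gadget -/
private def GC (k : ℕ) (z : ℤ) (c : Cl) : Prop :=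
  ∃ s, (cm k z = 3 * sg s ∧ c = Cl.gad k s) ∨ (cm k z = sg s ∧ c = Cl.blk (k + 1) (D.mu (k + 1)) s)

private theorem sg_inj {s s' : Bool} (h : sg s = sg s') : s = s' := by
  revert h
  cases s <;> cases s' <;> simp [sg]

private theorem sg_3 {s s' : Bool} (h : 3 * sg s = sg s') : False := by
  revert h
  cases s <;> cases s' <;> simp [sg]

private theorem iA_01 (x : ℝ) : iA x = 0 ∨ iA x = 1 := by
  unfold iA
  split_ifs
  · exact Or.inr rfl
  · exact Or.inl rfl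

private theorem iE_01 (x : ℝ) : iE x = 0 ∨ iE x = 1 := by
  unfold iE
  split_ifs
  · exact Or.inl rfl
  · exact Or.inr rfl

private theorem iA_ne_iE (x : ℝ) : iA x ≠ iE x := by
  unfold iA iE
  split_ifs <;> norm_num

private theorem pc_fun (h1 : T_PNT) {k : ℕ} {t i : ℤ} {s : Bool} {c c' : Cl}
    (h : PC D k t i s c) (h' : PC D k t i s c') : c = c' := by
  rcases h with ⟨m, hm, ht, h⟩ | ⟨hn, rfl⟩
  · rcases h' with ⟨m', hm', ht', h'⟩ | ⟨hn', -⟩
    · obtain rfl := (h1 d D).2.2.2.2.1 k m m' t hm.1 hm.2 hm'.1 hm'.2 ht ht'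
      rcases h with ⟨hi, rfl⟩ | ⟨hi, rfl⟩
      · rcases h' with ⟨-, rfl⟩ | ⟨hi', -⟩
        · rfl
        · exact absurd (hi.symm.trans hi') (iA_ne_iE _)
      · rcases h' with ⟨hi', -⟩ | ⟨-, rfl⟩
        · exact absurd (hi'.symm.trans hi) (iA_ne_iE _)
        · rfl
    · exact absurd ht (hn' m hm)
  · rcases h' with ⟨m', hm', ht', -⟩ | ⟨-, rfl⟩
    · exact absurd ht' (hn m' hm')
    · rfl

private theorem gc_fun {k : ℕ} {z : ℤ} {c c' : Cl} (h : GC D k z c) (h' : GC D k z c') :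
    c = c' := by
  obtain ⟨s, h⟩ := h
  obtain ⟨s', h'⟩ := h'
  rcases h with ⟨h, rfl⟩ | ⟨h, rfl⟩
  · rcases h' with ⟨h', rfl⟩ | ⟨h', rfl⟩
    · have h3 : sg s = sg s' := by
        rw [h] at h'
        linarith
      rw [sg_inj h3]
    · exact (sg_3 (h.symm.trans h')).elim
  · rcases h' with ⟨h', rfl⟩ | ⟨h', rfl⟩
    · exact (sg_3 (h'.symm.trans h)).elim
    · rw [sg_inj (h.symm.trans h')]

/-- the address of an element of a class -/
private def Adr (z : ℤ) (c : Cl) : Prop :=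
  (∃ k t i s, D.g k t ≠ 0 ∧ (i = 0 ∨ i = 1) ∧ z = pt k t i s ∧ PC D k t i s c) ∨
  ∃ k, z ∈ GW k (D.Z k) ∧ GC D k z c

private theorem adr_fun (h1 : T_PNT) {z : ℤ} {c c' : Cl} (h : Adr D z c) (h' : Adr D z c') :
    c = c' := by
  rcases h with ⟨k, t, i, s, hg, hi, hz, hc⟩ | ⟨k, hz, hc⟩
  · rcases h' with ⟨k', t', i', s', hg', hi', hz', hc'⟩ | ⟨k', hz', hc'⟩
    · obtain ⟨rfl, rfl, rfl, rfl⟩ := (h1 d D).2.1 k k' t t' i i' s s' hg hg' hi hi'
        (hz.symm.trans hz')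
      exact pc_fun D h1 hc hc'
    · exact absurd hz ((h1 d D).2.2.1 k k' t i s z hi hz')
  · rcases h' with ⟨k', t', i', s', hg', hi', hz', hc'⟩ | ⟨k', hz', hc'⟩
    · exact absurd hz' ((h1 d D).2.2.1 k' k t' i' s' z hi' hz)
    · obtain rfl := (h1 d D).2.2.2.1 k k' z hz hz'
      exact gc_fun D hc hc'

private theorem g_ne {k m : ℕ} (hm : Wi D k m) {t : ℤ} (ht : t ∈ D.T k m) : D.g k t ≠ 0 :=
  (D.hT k m hm.1 hm.2).2.1 t ht

private theorem adr_AB {k m : ℕ} (hm : Wi D k m) {s : Bool} {z : ℤ} (hz : z ∈ D.AB k m s) :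
    Adr D z (Cl.blk k m s) := by
  obtain ⟨t, ht, rfl⟩ := mem_image.1 hz
  exact Or.inl ⟨k, t, _, s, g_ne D hm ht, iA_01 _, rfl, Or.inl ⟨m, hm, ht, Or.inl ⟨rfl, rfl⟩⟩⟩

private theorem adr_EB {k m : ℕ} (hm : Wi D k m) {s : Bool} {z : ℤ} (hz : z ∈ D.EB k m s) :
    Adr D z (nxt D k m s) := by
  obtain ⟨t, ht, rfl⟩ := mem_image.1 hz
  exact Or.inl ⟨k, t, _, s, g_ne D hm ht, iE_01 _, rfl, Or.inl ⟨m, hm, ht, Or.inr ⟨rfl, rfl⟩⟩⟩

private theorem adr_cl {z : ℤ} {c : Cl} (hz : z ∈ cl D c) : Adr D z c := by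
  rcases c with ⟨k, m, s⟩ | ⟨k, s⟩ | ⟨k, t, s⟩
  · unfold cl at hz
    simp only at hz
    split_ifs at hz with h1 h2
    · rcases mem_union.1 hz with h | h
      · exact adr_AB D h1 h
      · subst h2
        unfold Dat.EP at h
        split_ifs at h with h3
        · exact absurd h (notMem_empty z)
        · obtain ⟨k', rfl⟩ := Nat.exists_eq_succ_of_ne_zero h3
          rw [Nat.succ_eq_add_one, Nat.add_sub_cancel] at h
          obtain ⟨h4, h5, -⟩ := mem_filter.1 h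
          exact Or.inr ⟨k', h4, s, Or.inr ⟨h5, rfl⟩⟩
    · rcases mem_union.1 hz with h | h
      · exact adr_AB D h1 h
      · have h3 : Wi D k (m - 1) := ⟨by omega, by omega⟩
        have h4 := adr_EB D h3 h
        have h5 : m - 1 + 1 = m := by omega
        unfold nxt at h4
        rw [h5, if_pos h1.2] at h4
        exact h4
    · exact absurd hz (notMem_empty z)
  · unfold cl at hz
    rcases mem_union.1 hz with h | h
    · obtain ⟨h4, h5⟩ := mem_filter.1 h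
      exact Or.inr ⟨k, h4, s, Or.inl ⟨h5, rfl⟩⟩
    · have h2 := D.hmu (Nat.lt_succ_self k)
      rw [Nat.succ_eq_add_one] at h2
      have h3 : Wi D k (D.mu (k + 1) - 1) := ⟨by omega, by omega⟩
      have h4 := adr_EB D h3 h
      have h5 : ¬ (D.mu (k + 1) - 1 + 1 < D.mu (k + 1)) := by omega
      unfold nxt at h4
      rw [if_neg h5] at h4
      exact h4
  · unfold cl at hz
    simp only at hz
    split_ifs at hz with h1
    · rcases mem_insert.1 hz with h | h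
      · exact Or.inl ⟨k, t, 0, s, h1.1, Or.inl rfl, h,
          Or.inr ⟨fun m hm => h1.2 m hm.1 hm.2, rfl⟩⟩
      · exact Or.inl ⟨k, t, 1, s, h1.1, Or.inr rfl, mem_singleton.1 h,
          Or.inr ⟨fun m hm => h1.2 m hm.1 hm.2, rfl⟩⟩
    · exact absurd hz (notMem_empty z)

end

theorem dsj (h1 : T_PNT) (_ : T_GCT) : Pool.Agent.H93.ET.T_DSJ := by
  intro d D
  refine ⟨fun c c' z h h' => adr_fun D h1 (adr_cl D h) (adr_cl D h'), ?_, ?_, ?_⟩
  · intro k m m' s hm1 hm2 hm1' hm2'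
    refine disjoint_left.2 fun z hz hz' => ?_
    obtain ⟨t, ht, rfl⟩ := mem_image.1 hz
    obtain ⟨t', ht', h⟩ := mem_image.1 hz'
    obtain ⟨-, rfl, h3, -⟩ := (h1 d D).2.1 k k t' t _ _ s s (g_ne D ⟨hm1', hm2'⟩ ht')
      (g_ne D ⟨hm1, hm2⟩ ht) (iE_01 _) (iA_01 _) h
    exact iA_ne_iE _ h3.symm
  · intro k m s hm1 hm2
    refine disjoint_left.2 fun z hz hz' => ?_
    obtain ⟨t, ht, rfl⟩ := mem_image.1 hz
    unfold Dat.EP at hz'
    split_ifs at hz' with h3
    · exact absurd hz' (notMem_empty _)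
    · exact (h1 d D).2.2.1 k (k - 1) t _ s _ (iA_01 _) (mem_filter.1 hz').1 rfl
  · intro k m s hm1 hm2
    refine disjoint_left.2 fun z hz hz' => ?_
    obtain ⟨t, ht, rfl⟩ := mem_image.1 hz'
    exact (h1 d D).2.2.1 k k t _ s _ (iE_01 _) (mem_filter.1 hz).1 rfl

end Pool.Agent.H54.ET
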