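import Pool.Agent.H72.ET.Targets
import Pool.Agent.H62.BF.ESF

/-!
# T_ETQ: the exceptional logarithms relative to a tuple, at one height
-/

open Finset Filter

namespace Pool.Agent.H54.ET

open Pool.Agent.H72.BF Pool.Agent.H72.ET

/-- values of integer polynomials at integer sequences -/
private theorem evZ_eval {H : ℕ → ℝ} (P : Pkg H) {L : ℕ} (gz : ℕ → Fin L → ℤ)
    (hgz : ∀ i, P.Bd (fun j => gz j i)) (g : Fin L → P.kb)
    (hg : ∀ i, algebraMap P.kb P.F (g i) = P.evZ (fun j => gz j i)) (f : MvPolynomial (Fin L) ℤ) :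
    P.Bd (fun j => MvPolynomial.eval (gz j) f) ∧
      P.evZ (fun j => MvPolynomial.eval (gz j) f) =
        algebraMap P.kb P.F (MvPolynomial.aeval g f) := by
  induction f using MvPolynomial.induction_on with
  | C a =>
    simp only [MvPolynomial.eval_C]
    refine ⟨P.bd_const a, ?_⟩
    rw [P.evZ_const]
    simp
  | add p q hp hq =>
    simp only [map_add]
    refine ⟨hp.1.add hq.1, ?_⟩
    rw [P.evZ_add hp.1 hq.1, hp.2, hq.2]
  | mul_X p i hp =>
    simp only [map_mul, MvPolynomial.eval_X, MvPolynomial.aeval_X]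
    refine ⟨hp.1.mul (hgz i), ?_⟩
    rw [P.evZ_mul hp.1 (hgz i), hp.2, hg]

/-- the monomials of degree at most `d` -/
private noncomputable def Mon (n d : ℕ) : Finset (Fin n →₀ ℕ) :=
  (Pool.Agent.H29.BF.fin_deg (Fin n) d).toFinset

private theorem mem_Mon {n d : ℕ} {m : Fin n →₀ ℕ} : m ∈ Mon n d ↔ m.degree ≤ d := by
  rw [Mon, Set.Finite.mem_toFinset]
  rfl

private theorem coeff_zero_of {K : Type} [CommRing K] {n d : ℕ} {f : MvPolynomial (Fin n) K}
    (hf : f.totalDegree ≤ d) {m : Fin n →₀ ℕ} (hm : m ∉ Mon n d) : f.coeff m = 0 := by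
  apply MvPolynomial.coeff_eq_zero_of_totalDegree_lt
  rw [mem_Mon] at hm
  push Not at hm
  exact lt_of_le_of_lt hf hm

/-- size of a value -/
private theorem eval_bound {L D : ℕ} {H : ℝ} (hH : 2 ≤ H) (f : MvPolynomial (Fin L) ℤ)
    (hf : f.totalDegree ≤ D) (hc : ∀ m : Fin L →₀ ℕ, |f.coeff m| ≤ (D : ℤ)) (x : Fin L → ℤ)
    (hx : ∀ i, |(x i : ℝ)| ≤ H) :
    |((MvPolynomial.eval x f : ℤ) : ℝ)| ≤ H ^ (D + (Mon L D).card * D) := by
  have hH1 : (1 : ℝ) ≤ H := by linarith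
  have h1 : MvPolynomial.eval x f = ∑ m ∈ Mon L D, f.coeff m * ∏ i, x i ^ m i := by
    rw [MvPolynomial.eval_eq']
    refine Finset.sum_subset (fun m hm => ?_) (fun m _ hm => ?_)
    · by_contra h
      exact (MvPolynomial.mem_support_iff.mp hm) (coeff_zero_of hf h)
    · rw [MvPolynomial.notMem_support_iff.mp hm, zero_mul]
  have h2 : ∀ m ∈ Mon L D, |((f.coeff m * ∏ i, x i ^ m i : ℤ) : ℝ)| ≤ D * H ^ D := by
    intro m hm
    push_cast
    rw [abs_mul, Finset.abs_prod]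
    have h3 : |((f.coeff m : ℤ) : ℝ)| ≤ D := by
      have := hc m
      exact_mod_cast this
    have h4 : ∏ i, |(x i : ℝ) ^ m i| ≤ H ^ D := by
      have h5 : ∏ i, |(x i : ℝ) ^ m i| ≤ ∏ i, H ^ m i := by
        refine Finset.prod_le_prod (fun i _ => abs_nonneg _) fun i _ => ?_
        rw [abs_pow]
        exact pow_le_pow_left₀ (abs_nonneg _) (hx i) _
      refine h5.trans ?_
      rw [Finset.prod_pow_eq_pow_sum, ← Finsupp.degree_eq_sum]
      exact pow_le_pow_right₀ hH1 (mem_Mon.mp hm)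
    exact mul_le_mul h3 h4 (Finset.prod_nonneg fun i _ => abs_nonneg _) (Nat.cast_nonneg _)
  rw [h1]
  push_cast
  refine (Finset.abs_sum_le_sum_abs _ _).trans ?_
  have h3 : ∑ m ∈ Mon L D, |((f.coeff m : ℤ) : ℝ) * ∏ i, (x i : ℝ) ^ m i| ≤
      ∑ _m ∈ Mon L D, (D : ℝ) * H ^ D := by
    refine Finset.sum_le_sum fun m hm => ?_
    have := h2 m hm
    push_cast at this
    exact this
  refine h3.trans ?_
  rw [Finset.sum_const, nsmul_eq_mul, pow_add]
  have h4 : (((Mon L D).card : ℝ) * D) ≤ H ^ ((Mon L D).card * D) := by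
    have h5 : (((Mon L D).card * D : ℕ) : ℝ) ≤ 2 ^ ((Mon L D).card * D) := by
      exact_mod_cast (Nat.lt_two_pow_self).le
    have h6 : (2 : ℝ) ^ ((Mon L D).card * D) ≤ H ^ ((Mon L D).card * D) :=
      pow_le_pow_left₀ (by norm_num) hH _
    push_cast at h5
    linarith
  have h5 : (0 : ℝ) ≤ H ^ D := by positivity
  nlinarith [mul_le_mul_of_nonneg_right h4 h5]

private theorem etq_core (hEVP : T_EVP) (hMNR : T_MNR) (r d M s N D0 : ℕ) (A : ℝ)
    (hEXU : ∀ (K F : Type) [Field K] [CharZero K] [IsAlgClosed K] [Field F] [Algebra K F]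
      (t : Fin r → F) (y : Fin M → F)
      (g : Fin (Fintype.card ((Fin N × Fin M) ⊕ (Fin N × Mon (r + 1) d))) → K)
      (v : Fin N → Fin M → K) (P : Fin N → MvPolynomial (Fin (r + 1)) K),
      LinearIndependent K (Fin.cons 1 y : Fin (M + 1) → F) →
      (∀ l j, ∃ i, v l j = g i) → (∀ l m, (P l).coeff m = 0 ∨ ∃ i, (P l).coeff m = g i) →
      (∀ l, P l ≠ 0) → (∀ l, (P l).totalDegree ≤ d) →
      (∀ l, MvPolynomial.aeval (Fin.snoc t (∑ j, algebraMap K F (v l j) * y j) :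
        Fin (r + 1) → F) (P l) = 0) →
      (∀ Q : MvPolynomial (Fin r) K, Q ≠ 0 → Q.totalDegree ≤ D0 → (∀ m, Sm g D0 (Q.coeff m)) →
        MvPolynomial.aeval t Q ≠ 0) →
      ∃ W : Fin s → Submodule K (Fin M → K),
        (∀ i, Module.finrank K (W i) + 1 ≤ (r + d).choose d) ∧ ∀ l, ∃ i, v l ∈ W i)
    {H : ℕ → ℝ} (P : Pkg H) (μ : Fin M → ℂ)
    (hli : LinearIndependent P.kb (Fin.cons 1 (fun k => P.cst (μ k)) : Fin (M + 1) → P.F))
    (ξ : ℕ → Fin r → ℂ) (hξ : ∀ j i, ‖ξ j i‖ ≤ H j) (D : ℕ)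
    (hD : D = D0 + (Mon (Fintype.card ((Fin N × Fin M) ⊕ (Fin N × Mon (r + 1) d))) D0).card * D0)
    (hgood : ∀ j, GoodN D (H j ^ (D : ℝ)) A (ξ j))
    (w : ℕ → Fin N → Fin M → ℤ) (hw : ∀ j l k, |(w j l k : ℝ)| ≤ H j)
    (Q : ℕ → Fin N → MvPolynomial (Fin (r + 1)) ℤ) (hQ0 : ∀ j l, Q j l ≠ 0)
    (hQd : ∀ j l, (Q j l).totalDegree ≤ d)
    (hQc : ∀ j l, ∀ e : Fin (r + 1) →₀ ℕ, |(((Q j l).coeff e : ℤ) : ℝ)| ≤ H j)
    (hQv : ∀ (j : ℕ) l, H j ^ ((j : ℝ) + 1) * ‖MvPolynomial.aeval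
      (Fin.snoc (ξ j) (∑ k, (w j l k : ℂ) * μ k) : Fin (r + 1) → ℂ) (Q j l)‖ < 1)
    (hcov : ∀ j, ∀ U : Fin s → Submodule ℚ (Fin M → ℚ),
      (∀ l, Module.finrank ℚ (U l) ≤ (r + d).choose d - 1) →
      ∃ i, ∀ l, (fun k => (w j i k : ℚ)) ∉ U l) : False := by
  classical
  have hBw : ∀ l k, P.Bd (fun j => w j l k) := fun l k =>
    P.bd_of_le 1 (fun j => by rw [pow_one]; exact hw j l k)
  have hBQ : ∀ l e, P.Bd (fun j => (Q j l).coeff e) := fun l e =>
    P.bd_of_le 1 (fun j => by rw [pow_one]; exact hQc j l e)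
  let β : Fin N → Fin M → P.kb := fun l k =>
    algebraMap P.kk P.kb ⟨P.evZ (fun j => w j l k), P.evZ_mem (hBw l k)⟩
  have hβ : ∀ l k, algebraMap P.kb P.F (β l k) = P.evZ (fun j => w j l k) := fun l k => rfl
  set t : Fin r → P.F := fun i => P.ev (fun j => ξ j i) with ht
  have hξO : ∀ i, (fun j => ξ j i) ∈ P.O := fun i =>
    P.mem_of_le 1 fun j => by rw [pow_one]; exact hξ j i
  -- sums
  have hsumO : ∀ l, (fun j => ∑ k, (w j l k : ℂ) * μ k) ∈ P.O ∧
      P.ev (fun j => ∑ k, (w j l k : ℂ) * μ k) =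
        ∑ k, algebraMap P.kb P.F (β l k) * P.cst (μ k) := by
    intro l
    have h1 : (fun j => ∑ k, (w j l k : ℂ) * μ k) =
        ∑ k, ((fun j => (w j l k : ℂ)) * (fun _ => μ k)) := by
      funext j
      rw [Finset.sum_apply]
      rfl
    rw [h1]
    refine ⟨P.O.sum_mem fun k _ => P.O.mul_mem (hBw l k) (P.const_mem (μ k)), ?_⟩
    rw [P.ev_sum _ _ (fun k _ => P.O.mul_mem (hBw l k) (P.const_mem (μ k)))]
    refine Finset.sum_congr rfl fun k _ => ?_
    rw [P.ev_mul (hBw l k) (P.const_mem (μ k))]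
    rfl
  -- the relations
  have hrel : ∀ l, ∃ Q' : MvPolynomial (Fin (r + 1)) P.kk, Q'.totalDegree ≤ d ∧
      (∀ m : Fin (r + 1) →₀ ℕ, ((Q'.coeff m : P.kk) : P.F) = P.evZ (fun j => (Q j l).coeff m)) ∧
      MvPolynomial.aeval (Fin.snoc t (∑ k, algebraMap P.kb P.F (β l k) * P.cst (μ k)) :
        Fin (r + 1) → P.F) Q' = 0 := by
    intro l
    obtain ⟨Q', h1, h2, h3⟩ := hEVP H P (Fin (r + 1)) d 1 (fun j => Q j l) (fun j => hQd j l)
      (fun j m => by rw [pow_one]; exact hQc j l m)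
    refine ⟨Q', h1, h2, ?_⟩
    have h4 := h3 (fun j => (Fin.snoc (ξ j) (∑ k, (w j l k : ℂ) * μ k) : Fin (r + 1) → ℂ))
      (fun i => by
        refine Fin.lastCases ?_ (fun i => ?_) i
        · simpa using (hsumO l).1
        · simpa using hξO i)
    have h5 : (fun i => P.ev (fun j => (Fin.snoc (ξ j) (∑ k, (w j l k : ℂ) * μ k) :
        Fin (r + 1) → ℂ) i)) =
        (Fin.snoc t (∑ k, algebraMap P.kb P.F (β l k) * P.cst (μ k)) : Fin (r + 1) → P.F) := by
      funext i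
      refine Fin.lastCases ?_ (fun i => ?_) i
      · simp only [Fin.snoc_last]
        exact (hsumO l).2
      · simp only [Fin.snoc_castSucc]
        rfl
    rw [h5] at h4
    rw [h4.2, P.ev_eq_zero h4.1]
    intro c
    filter_upwards [Pool.Agent.H29.BF.ev_ge c] with j hj
    have h1 := P.hH j
    have h2 : H j ^ c ≤ H j ^ ((j : ℝ) + 1) := by
      rw [← Real.rpow_natCast]
      refine Real.rpow_le_rpow_of_exponent_le (by linarith) ?_
      have : (c : ℝ) ≤ j := by exact_mod_cast hj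
      linarith
    have h4 := hQv j l
    have h3 : 0 ≤ ‖MvPolynomial.aeval (Fin.snoc (ξ j) (∑ k, (w j l k : ℂ) * μ k) :
      Fin (r + 1) → ℂ) (Q j l)‖ := norm_nonneg _
    nlinarith [mul_le_mul_of_nonneg_right h2 h3]
  choose Q' hQ'd hQ'c hQ'v using hrel
  have hQ'0 : ∀ l, Q' l ≠ 0 := by
    intro l hz
    have h1 : ∀ m : Fin (r + 1) →₀ ℕ, ∀ᶠ j in (hyperfilter ℕ : Filter ℕ),
        (Q j l).coeff m = 0 := by
      intro m
      rw [← P.evZ_eq_zero (hBQ l m), ← hQ'c l m, hz, MvPolynomial.coeff_zero]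
      rfl
    have h2 : ∀ᶠ j in (hyperfilter ℕ : Filter ℕ), ∀ m ∈ Mon (r + 1) d,
        (Q j l).coeff m = 0 := (Filter.eventually_all_finset _).2 fun m _ => h1 m
    obtain ⟨j, hj⟩ := h2.exists
    apply hQ0 j l
    ext m
    rw [MvPolynomial.coeff_zero]
    by_cases hm : m ∈ Mon (r + 1) d
    · exact hj m hm
    · exact coeff_zero_of (hQd j l) hm
  -- the finite list of elements
  let I := (Fin N × Fin M) ⊕ (Fin N × Mon (r + 1) d)
  let ei : Fin (Fintype.card I) ≃ I := (Fintype.equivFin I).symm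
  let gI : I → P.kb := Sum.elim (fun p => β p.1 p.2)
    (fun p => algebraMap P.kk P.kb ((Q' p.1).coeff p.2.1))
  let zI : ℕ → I → ℤ := fun j => Sum.elim (fun p => w j p.1 p.2)
    (fun p => (Q j p.1).coeff p.2.1)
  have hzI : ∀ j x, |(zI j x : ℝ)| ≤ H j := by
    intro j x
    rcases x with p | p
    · exact hw j p.1 p.2
    · exact hQc j p.1 p.2.1
  have hgI : ∀ x, algebraMap P.kb P.F (gI x) = P.evZ (fun j => zI j x) := by
    intro x
    rcases x with p | p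
    · exact hβ p.1 p.2
    · exact hQ'c p.1 p.2.1
  let g : Fin (Fintype.card I) → P.kb := fun i => gI (ei i)
  let gz : ℕ → Fin (Fintype.card I) → ℤ := fun j i => zI j (ei i)
  have hgzH : ∀ j i, |(gz j i : ℝ)| ≤ H j := fun j i => hzI j (ei i)
  have hgz : ∀ i, P.Bd (fun j => gz j i) := fun i =>
    P.bd_of_le 1 (fun j => by rw [pow_one]; exact hgzH j i)
  have hg : ∀ i, algebraMap P.kb P.F (g i) = P.evZ (fun j => gz j i) := fun i => hgI (ei i)
  -- the hypothesis on small polynomials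
  have hsmall : ∀ R : MvPolynomial (Fin r) P.kb, R ≠ 0 → R.totalDegree ≤ D0 →
      (∀ m, Sm g D0 (R.coeff m)) → MvPolynomial.aeval t R ≠ 0 := by
    intro R hR0 hRd hRm hRt
    choose f hf1 hf2 hf3 using hRm
    let Z : ℕ → MvPolynomial (Fin r) ℤ := fun j =>
      ∑ m ∈ Mon r D0, MvPolynomial.monomial m (MvPolynomial.eval (gz j) (f m))
    have hZc : ∀ j m, (Z j).coeff m =
        if m ∈ Mon r D0 then MvPolynomial.eval (gz j) (f m) else 0 := by
      intro j m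
      simp only [Z, MvPolynomial.coeff_sum, MvPolynomial.coeff_monomial]
      by_cases hm : m ∈ Mon r D0
      · rw [if_pos hm, Finset.sum_eq_single m]
        · rw [if_pos rfl]
        · intro b _ hb
          rw [if_neg hb]
        · intro h
          exact absurd hm h
      · rw [if_neg hm]
        refine Finset.sum_eq_zero fun b hb => ?_
        rw [if_neg]
        rintro rfl
        exact hm hb
    have hDD : D0 ≤ D := by rw [hD]; exact Nat.le_add_right _ _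
    have hZd : ∀ j, (Z j).totalDegree ≤ D0 := by
      intro j
      refine MvPolynomial.totalDegree_finsetSum_le fun m hm => ?_
      refine (MvPolynomial.totalDegree_monomial_le _ _).trans ?_
      have := mem_Mon.mp hm
      exact this
    have hZb : ∀ j m, |(((Z j).coeff m : ℤ) : ℝ)| ≤ H j ^ D := by
      intro j m
      rw [hZc]
      have hH := P.hH j
      split_ifs
      · rw [hD]
        exact eval_bound hH (f m) (hf1 m) (hf2 m) (gz j) (hgzH j)
      · simp only [Int.cast_zero, abs_zero]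
        positivity
    obtain ⟨R', hR'd, hR'c, hR'v⟩ := hEVP H P (Fin r) D0 D Z hZd hZb
    have hR'R : MvPolynomial.map (algebraMap P.kk P.kb) R' = R := by
      refine MvPolynomial.ext _ _ fun m => ?_
      apply (algebraMap P.kb P.F).injective
      rw [MvPolynomial.coeff_map]
      have h1 : algebraMap P.kb P.F (algebraMap P.kk P.kb (R'.coeff m)) =
          P.evZ (fun j => (Z j).coeff m) := hR'c m
      rw [h1]
      by_cases hm : m ∈ Mon r D0
      · have h2 : (fun j => (Z j).coeff m) = fun j => MvPolynomial.eval (gz j) (f m) := by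
          funext j
          rw [hZc, if_pos hm]
        rw [h2, (evZ_eval P gz hgz g hg (f m)).2, hf3]
      · have h2 : (fun j => (Z j).coeff m) = fun _ => (0 : ℤ) := by
          funext j
          rw [hZc, if_neg hm]
        rw [h2, P.evZ_const, coeff_zero_of hRd hm, map_zero]
        simp
    obtain ⟨hO, hv⟩ := hR'v ξ hξO
    have hv0 : P.ev (fun j => MvPolynomial.aeval (ξ j) (Z j)) = 0 := by
      rw [← hv, ← hRt, ← hR'R, MvPolynomial.aeval_map_algebraMap]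
    -- some coefficient is not zero
    obtain ⟨m, hm⟩ := MvPolynomial.ne_zero_iff.mp hR0
    have hBm : P.Bd (fun j => (Z j).coeff m) := P.bd_of_le D (fun j => hZb j m)
    have hne : ∀ᶠ j in (hyperfilter ℕ : Filter ℕ), ¬ (Z j).coeff m = 0 := by
      rw [Ultrafilter.eventually_not, ← P.evZ_eq_zero hBm]
      intro h
      apply hm
      apply (algebraMap P.kb P.F).injective
      rw [map_zero, ← h, ← hR'R, MvPolynomial.coeff_map]
      exact hR'c m
    obtain ⟨j, hj1, hj2⟩ := (hne.and ((P.ev_eq_zero hO).1 hv0 (⌈(D : ℝ) * |A|⌉₊ + 1))).exists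
    have hH := P.hH j
    have hHp : 0 < H j := by linarith
    have hZ0 : Z j ≠ 0 := by
      intro h
      rw [h, MvPolynomial.coeff_zero] at hj1
      exact hj1 rfl
    have h1 := hgood j (Z j) hZ0 ((hZd j).trans hDD) (fun e => by
      rw [Real.rpow_natCast]
      exact hZb j e)
    rw [← Real.rpow_mul hHp.le] at h1
    have h2 : H j ^ ((D : ℝ) * A) ≤ H j ^ (⌈(D : ℝ) * |A|⌉₊ : ℕ) := by
      rw [← Real.rpow_natCast]
      refine Real.rpow_le_rpow_of_exponent_le (by linarith) ?_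
      have h3 : (D : ℝ) * A ≤ D * |A| :=
        mul_le_mul_of_nonneg_left (le_abs_self A) (Nat.cast_nonneg _)
      exact h3.trans (Nat.le_ceil _)
    set x : ℝ := ‖MvPolynomial.aeval (ξ j) (Z j)‖ with hx
    have hx0 : 0 ≤ x := norm_nonneg _
    have h3 : 1 ≤ H j ^ (⌈(D : ℝ) * |A|⌉₊ : ℕ) * x :=
      h1.trans (mul_le_mul_of_nonneg_right h2 hx0)
    rw [pow_succ] at hj2
    have h4 : x * (H j ^ (⌈(D : ℝ) * |A|⌉₊ : ℕ) * H j) =
        (H j ^ (⌈(D : ℝ) * |A|⌉₊ : ℕ) * x) * H j := by ring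
    rw [h4] at hj2
    nlinarith
  obtain ⟨W, hW1, hW2⟩ := hEXU P.kb P.F t (fun k => P.cst (μ k)) g β
    (fun l => MvPolynomial.map (algebraMap P.kk P.kb) (Q' l)) hli
    (fun l k => ⟨ei.symm (Sum.inl (l, k)), by
      change β l k = gI (ei (ei.symm (Sum.inl (l, k))))
      rw [Equiv.apply_symm_apply]
      rfl⟩)
    (fun l m => by
      rw [MvPolynomial.coeff_map]
      by_cases hm : m ∈ Mon (r + 1) d
      · right
        refine ⟨ei.symm (Sum.inr (l, ⟨m, hm⟩)), ?_⟩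
        change _ = gI (ei (ei.symm (Sum.inr (l, ⟨m, hm⟩))))
        rw [Equiv.apply_symm_apply]
        rfl
      · left
        rw [coeff_zero_of (hQ'd l) hm, map_zero])
    (fun l h => hQ'0 l (MvPolynomial.map_injective (algebraMap P.kk P.kb)
      (algebraMap P.kk P.kb).injective (by rw [h, map_zero])))
    (fun l => (Finset.sup_mono (MvPolynomial.support_map_subset _ _)).trans (hQ'd l))
    (fun l => by rw [MvPolynomial.aeval_map_algebraMap]; exact hQ'v l)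
    hsmall
  exact Pool.Agent.H62.BF.colour_core hMNR ((r + d).choose d - 1) M s N P w hBw W
    (fun i => by have := hW1 i; omega) β hβ hW2 hcov

/-- the exceptional logarithms relative to a tuple lie in few subspaces -/
theorem pf_ETQ (hBF : T_BF) (hPKG : T_PKG) (hBFF : T_BFF) (hEVP : T_EVP) (hMNR : T_MNR)
    (hEXU : T_EXU) (hCRT : T_CRT) : T_ETQ := by
  classical
  intro r d M
  obtain ⟨s, hs⟩ := hEXU r d M
  obtain ⟨N, hN⟩ := hCRT s ((r + d).choose d - 1)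
  obtain ⟨D0, hD0⟩ := hs N (Fintype.card ((Fin N × Fin M) ⊕ (Fin N × Mon (r + 1) d)))
  refine ⟨s, D0 + (Mon (Fintype.card ((Fin N × Fin M) ⊕ (Fin N × Mon (r + 1) d))) D0).card * D0,
    ?_⟩
  set D : ℕ := D0 +
    (Mon (Fintype.card ((Fin N × Fin M) ⊕ (Fin N × Mon (r + 1) d))) D0).card * D0 with hD
  intro μ hμ halg A
  by_contra hcon
  push Not at hcon
  have hch : 1 ≤ (r + d).choose d := Nat.choose_pos (Nat.le_add_left _ _)
  have key : ∀ j : ℕ, ∃ H : ℝ, 2 ≤ H ∧ ∃ ξ : Fin r → ℂ, (∀ i, ‖ξ i‖ ≤ H) ∧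
      GoodN D (H ^ (D : ℝ)) A ξ ∧ ∃ w : Fin N → Fin M → ℤ, (∀ l k, |(w l k : ℝ)| ≤ H) ∧
      (∀ l, ¬ GoodN d H ((j : ℝ) + 1)
        (Fin.snoc ξ (∑ k, (w l k : ℂ) * μ k) : Fin (r + 1) → ℂ)) ∧
      ∀ U : Fin s → Submodule ℚ (Fin M → ℚ),
        (∀ l, Module.finrank ℚ (U l) ≤ (r + d).choose d - 1) →
        ∃ i, ∀ l, (fun k => (w i k : ℚ)) ∉ U l := by
    intro j
    obtain ⟨H, hH2, ξ, hξ, hgood, hH⟩ := hcon ((j : ℝ) + 1) (by positivity)
    refine ⟨H, hH2, ξ, hξ, hgood, ?_⟩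
    have h2 : ¬ ∃ U : Fin s → Submodule ℚ (Fin M → ℚ),
        (∀ i, Module.finrank ℚ (U i) ≤ (r + d).choose d - 1) ∧
        ∀ b ∈ {b : Fin M → ℚ | ∃ w : Fin M → ℤ, (b = fun k => (w k : ℚ)) ∧
          (∀ k, |(w k : ℝ)| ≤ H) ∧ ¬ GoodN d H ((j : ℝ) + 1)
            (Fin.snoc ξ (∑ k, (w k : ℂ) * μ k) : Fin (r + 1) → ℂ)}, ∃ l, b ∈ U l := by
      rintro ⟨U, hU1, hU2⟩
      obtain ⟨w, hw1, hw2, hw3⟩ := hH U (fun i => by have := hU1 i; omega)
      obtain ⟨l, hl⟩ := hU2 _ ⟨w, rfl, hw1, hw3⟩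
      exact hw2 l hl
    have h3 := mt (hN ℚ M _) h2
    push Not at h3
    obtain ⟨b, hb1, hb2⟩ := h3
    choose w hw1 hw2 hw3 using hb1
    refine ⟨w, hw2, hw3, fun U hU => ?_⟩
    obtain ⟨i, hi⟩ := hb2 U hU
    refine ⟨i, fun l => ?_⟩
    rw [← hw1 i]
    exact hi l
  choose H hH2 ξ hξ hgood w hw hbad hcov using key
  have hbad' : ∀ (j : ℕ) l, ∃ Q : MvPolynomial (Fin (r + 1)) ℤ, Q ≠ 0 ∧ Q.totalDegree ≤ d ∧
      (∀ e : Fin (r + 1) →₀ ℕ, |((Q.coeff e : ℤ) : ℝ)| ≤ H j) ∧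
      H j ^ ((j : ℝ) + 1) * ‖MvPolynomial.aeval
        (Fin.snoc (ξ j) (∑ k, (w j l k : ℂ) * μ k) : Fin (r + 1) → ℂ) Q‖ < 1 := by
    intro j l
    have h1 := hbad j l
    unfold GoodN at h1
    push Not at h1
    obtain ⟨Q, h2, h3, h4, h5⟩ := h1
    exact ⟨Q, h2, h3, h4, h5⟩
  choose Q hQ0 hQd hQc hQv using hbad'
  obtain ⟨P⟩ := hPKG H hH2
  have hli := hBFF hBF M μ hμ halg H P
  exact etq_core hEVP hMNR r d M s N D0 A hD0 P μ hli ξ hξ D hD hgood w hw Q hQ0 hQd hQc hQv hcov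

end Pool.Agent.H54.ET
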