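import Pool.Agent.H72.ET.Targets
import Pool.Agent.H35.BF.STP

/-!
# Tools for T_STN: specialisation, homogenisation, total degree
-/

open Polynomial Finset Filter

namespace Pool.Agent.H54.ET.ST

open Pool.Agent.H72.BF Pool.Agent.H72.ET Pool.Agent.H35.BF.ST

variable {K : Type} [Field K] {m r : ℕ}

/-- specialisation of the form -/
noncomputable def Gw (G : (MvPolynomial (Fin m) (MvPolynomial (Fin r) K))[X]) (v : Fin m → K) :
    (MvPolynomial (Fin r) K)[X] :=
  G.map (MvPolynomial.eval (fun j => MvPolynomial.C (v j)))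

theorem coeff_Gw (G : (MvPolynomial (Fin m) (MvPolynomial (Fin r) K))[X]) (v : Fin m → K) (n : ℕ)
    (k : Fin r →₀ ℕ) : ((Gw G v).coeff n).coeff k =
      ∑ α ∈ (G.coeff n).support, ((G.coeff n).coeff α).coeff k * ∏ j, v j ^ α j := by
  rw [Gw, Polynomial.coeff_map, MvPolynomial.eval_eq', MvPolynomial.coeff_sum]
  refine Finset.sum_congr rfl fun α _ => ?_
  have : (∏ j, (MvPolynomial.C (v j) : MvPolynomial (Fin r) K) ^ α j) =
      MvPolynomial.C (∏ j, v j ^ α j) := by
    rw [map_prod]
    simp
  rw [this, mul_comm, MvPolynomial.coeff_C_mul, mul_comm]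

theorem ev_evA {A κ : Type} [CommRing A] [Field κ] [Algebra K A] [Algebra K κ] (φ : A →ₐ[K] κ)
    (v : Fin m → K) (P : MvPolynomial (Fin m) A) :
    MvPolynomial.eval₂Hom φ.toRingHom (fun j => algebraMap K κ (v j)) P =
      φ (MvPolynomial.eval (fun j => algebraMap K A (v j)) P) := by
  have : MvPolynomial.eval₂Hom φ.toRingHom (fun j => algebraMap K κ (v j)) =
      φ.toRingHom.comp (MvPolynomial.eval (fun j => algebraMap K A (v j))) := by
    apply MvPolynomial.ringHom_ext
    · intro a
      rw [RingHom.comp_apply, MvPolynomial.eval_C]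
      exact MvPolynomial.eval₂_C _ _ _
    · intro i
      rw [RingHom.comp_apply, MvPolynomial.eval_X]
      refine (MvPolynomial.eval₂_X _ _ _).trans ?_
      exact (φ.commutes (v i)).symm
  rw [this]
  rfl

/-- dividing by a primitive specialisation -/
theorem dvd_of_rootsA {A Ω : Type} [CommRing A] [IsDomain A] [UniqueFactorizationMonoid A]
    [Field Ω] (ψ : A →+* Ω) (hψ : Function.Injective ψ) {e : ℕ}
    (z : Fin e → Ω) (hz : Function.Injective z) (g : Ω) (hg : g ≠ 0) (P Q : A[X])
    (hP : P.IsPrimitive) (hPz : P.map ψ = C g * ∏ i, (X - C (z i)))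
    (hQ : ∀ i, Q.eval₂ ψ (z i) = 0) : P ∣ Q := by
  let Fr := FractionRing A
  let f : Fr →+* Ω := IsFractionRing.lift hψ
  have hf : f.comp (algebraMap A Fr) = ψ := by
    ext x
    simp [f]
  apply hP.dvd_of_fraction_map_dvd_fraction_map (K := Fr)
  rw [← Polynomial.map_dvd_map' f, Polynomial.map_map, Polynomial.map_map, hf, hPz]
  have h1 : ∏ i, (X - C (z i)) ∣ Q.map ψ := by
    apply Fintype.prod_dvd_of_coprime (pairwise_coprime_X_sub_C hz)
    intro i
    rw [dvd_iff_isRoot, IsRoot, eval_map]
    exact hQ i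
  exact (IsUnit.mul_left_dvd (isUnit_C.mpr (isUnit_iff_ne_zero.mpr hg))).mpr h1

/-! ### Total degree -/

theorem degree_cons (n : ℕ) (μ : Fin r →₀ ℕ) : (Finsupp.cons n μ).degree = n + μ.degree := by
  rw [Finsupp.degree_eq_sum, Finsupp.degree_eq_sum, Fin.sum_univ_succ]
  simp

theorem totalDegree_le_iff (P : MvPolynomial (Fin (r + 1)) K) (d : ℕ) :
    P.totalDegree ≤ d ↔ TDr (MvPolynomial.finSuccEquiv K r P) d := by
  constructor
  · intro h n μ hn
    rw [MvPolynomial.finSuccEquiv_coeff_coeff]
    apply MvPolynomial.coeff_eq_zero_of_totalDegree_lt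
    refine lt_of_le_of_lt h (lt_of_lt_of_le hn ?_)
    rw [← degree_cons]
    exact le_of_eq rfl
  · intro h
    refine Finset.sup_le fun s hs => ?_
    by_contra hlt
    push Not at hlt
    rw [MvPolynomial.mem_support_iff] at hs
    apply hs
    have h2 : s = Finsupp.cons (s 0) s.tail := (Finsupp.cons_tail s).symm
    have h3 := h (s 0) s.tail (by
      rw [← degree_cons, ← h2]
      exact hlt)
    rw [MvPolynomial.finSuccEquiv_coeff_coeff, ← h2] at h3
    exact h3

theorem tdr_of_dvd {P Q : (MvPolynomial (Fin r) K)[X]} {d : ℕ} (hQ0 : Q ≠ 0) (h : P ∣ Q)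
    (hQ : TDr Q d) : TDr P d := by
  obtain ⟨S, hS⟩ := h
  have hP0 : P ≠ 0 := by
    rintro rfl
    rw [zero_mul] at hS
    exact hQ0 hS
  have hS0 : S ≠ 0 := by
    rintro rfl
    rw [mul_zero] at hS
    exact hQ0 hS
  let Ψ := (MvPolynomial.finSuccEquiv K r).symm
  have hne : ∀ R : (MvPolynomial (Fin r) K)[X], R ≠ 0 → Ψ R ≠ 0 := fun R hR h =>
    hR (by rw [← (MvPolynomial.finSuccEquiv K r).apply_symm_apply R]; change (MvPolynomial.finSuccEquiv K r) (Ψ R) = 0; rw [h, map_zero])
  have h1 : Ψ Q = Ψ P * Ψ S := by rw [hS, map_mul]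
  have h2 := congrArg MvPolynomial.totalDegree h1
  rw [MvPolynomial.totalDegree_mul_of_isDomain (hne _ hP0) (hne _ hS0)] at h2
  have h3 : (Ψ Q).totalDegree ≤ d := by
    rw [totalDegree_le_iff]
    change TDr (MvPolynomial.finSuccEquiv K r ((MvPolynomial.finSuccEquiv K r).symm Q)) d
    rw [(MvPolynomial.finSuccEquiv K r).apply_symm_apply]
    exact hQ
  have h4 : (Ψ P).totalDegree ≤ d := by omega
  rw [totalDegree_le_iff] at h4
  change TDr (MvPolynomial.finSuccEquiv K r ((MvPolynomial.finSuccEquiv K r).symm P)) d at h4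
  rw [(MvPolynomial.finSuccEquiv K r).apply_symm_apply] at h4
  exact h4

/-! ### Homogenisation -/

/-- `X_i ↦ S X_i`, `S ↦ S` -/
noncomputable def θ : (MvPolynomial (Fin r) K)[X] →+* (MvPolynomial (Fin r) K)[X] :=
  Polynomial.eval₂RingHom (MvPolynomial.eval₂Hom (C.comp MvPolynomial.C)
    (fun i => X * C (MvPolynomial.X i))) X

theorem θ_mon (k : ℕ) (μ : Fin r →₀ ℕ) (a : K) :
    θ (Polynomial.monomial k (MvPolynomial.monomial μ a)) =
      Polynomial.monomial (k + μ.degree) (MvPolynomial.monomial μ a) := by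
  rw [θ, Polynomial.coe_eval₂RingHom, Polynomial.eval₂_monomial, MvPolynomial.coe_eval₂Hom,
    MvPolynomial.eval₂_monomial, Finsupp.prod_fintype _ _ (fun _ => pow_zero _)]
  simp only [mul_pow, Finset.prod_mul_distrib, Finset.prod_pow_eq_pow_sum]
  rw [← Finsupp.degree_eq_sum, MvPolynomial.monomial_eq,
    Finsupp.prod_fintype _ _ (fun _ => pow_zero _), ← Polynomial.C_mul_X_pow_eq_monomial, pow_add,
    Polynomial.C_mul, map_prod]
  simp only [Polynomial.C_pow, RingHom.comp_apply]
  ring

theorem coeff_θ (P : (MvPolynomial (Fin r) K)[X]) (N : ℕ) (μ : Fin r →₀ ℕ) :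
    ((θ P).coeff N).coeff μ =
      if μ.degree ≤ N then (P.coeff (N - μ.degree)).coeff μ else 0 := by
  classical
  induction P using Polynomial.induction_on' with
  | add p q hp hq =>
    rw [map_add, Polynomial.coeff_add, MvPolynomial.coeff_add, hp, hq]
    split_ifs <;> simp
  | monomial k c =>
    induction c using MvPolynomial.induction_on' with
    | monomial ν a =>
      rw [θ_mon, Polynomial.coeff_monomial, Polynomial.coeff_monomial]
      by_cases hν : ν = μ
      · subst hν
        by_cases h : k + ν.degree = N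
        · rw [if_pos h, if_pos (by omega), if_pos (by omega)]
        · rw [if_neg h]
          by_cases h' : ν.degree ≤ N
          · rw [if_pos h', if_neg (by omega)]
          · rw [if_neg h', MvPolynomial.coeff_zero]
      · have h1 : ∀ (p : Prop) [Decidable p],
            MvPolynomial.coeff μ (if p then MvPolynomial.monomial ν a else 0) = 0 := by
          intro p _
          split_ifs
          · rw [MvPolynomial.coeff_monomial, if_neg hν]
          · rw [MvPolynomial.coeff_zero]
        rw [h1, h1]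
        simp
    | add p q hp hq =>
      rw [show Polynomial.monomial k (p + q) = Polynomial.monomial k p + Polynomial.monomial k q from
          map_add _ _ _, map_add, Polynomial.coeff_add, MvPolynomial.coeff_add, hp, hq,
        Polynomial.coeff_add, MvPolynomial.coeff_add]
      split_ifs <;> simp

theorem θ_inj : Function.Injective (θ : (MvPolynomial (Fin r) K)[X] →+* _) := by
  rw [injective_iff_map_eq_zero]
  intro P hP
  ext n μ
  have h := coeff_θ P (n + μ.degree) μ
  rw [hP, if_pos (by omega)] at h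
  simp only [Polynomial.coeff_zero, MvPolynomial.coeff_zero, Nat.add_sub_cancel] at h ⊢
  exact h.symm

/-- the homogenised coefficient -/
noncomputable def hm (N : ℕ) (c : MvPolynomial (Fin r) K) : (MvPolynomial (Fin r) K)[X] :=
  ∑ μ ∈ c.support, Polynomial.monomial (N - μ.degree) (MvPolynomial.monomial μ (c.coeff μ))

theorem hm_zero (N : ℕ) : hm N (0 : MvPolynomial (Fin r) K) = 0 := by
  rw [hm]
  simp

theorem coeff_hm (N : ℕ) (c : MvPolynomial (Fin r) K) (k : ℕ) (μ : Fin r →₀ ℕ) :
    ((hm N c).coeff k).coeff μ = if N - μ.degree = k then c.coeff μ else 0 := by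
  classical
  rw [hm, Polynomial.finsetSum_coeff, MvPolynomial.coeff_sum]
  by_cases hμ : μ ∈ c.support
  · rw [Finset.sum_eq_single μ]
    · rw [Polynomial.coeff_monomial]
      split_ifs
      · rw [MvPolynomial.coeff_monomial, if_pos rfl]
      · rw [MvPolynomial.coeff_zero]
    · intro ν _ hν
      rw [Polynomial.coeff_monomial]
      split_ifs
      · rw [MvPolynomial.coeff_monomial, if_neg hν]
      · rw [MvPolynomial.coeff_zero]
    · intro h
      exact absurd hμ h
  · rw [Finset.sum_eq_zero, MvPolynomial.notMem_support_iff.mp hμ, ite_self]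
    intro ν hν
    have hne : ν ≠ μ := by
      rintro rfl
      exact hμ hν
    rw [Polynomial.coeff_monomial]
    split_ifs
    · rw [MvPolynomial.coeff_monomial, if_neg hne]
    · rw [MvPolynomial.coeff_zero]

theorem θ_hm (N : ℕ) (c : MvPolynomial (Fin r) K) (h : ∀ μ, c.coeff μ ≠ 0 → μ.degree ≤ N) :
    θ (hm N c) = C c * X ^ N := by
  ext M μ
  rw [coeff_θ, coeff_hm, Polynomial.coeff_C_mul, Polynomial.coeff_X_pow]
  by_cases h0 : c.coeff μ = 0
  · have h1 : MvPolynomial.coeff μ (c * if M = N then 1 else 0) = 0 := by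
      split_ifs
      · rw [mul_one, h0]
      · rw [mul_zero, MvPolynomial.coeff_zero]
    rw [h1, h0]
    simp
  · have h2 := h μ h0
    by_cases hM : M = N
    · subst hM
      rw [if_pos h2, if_pos rfl, if_pos rfl, mul_one]
    · rw [if_neg hM, mul_zero, MvPolynomial.coeff_zero]
      by_cases h3 : μ.degree ≤ M
      · rw [if_pos h3, if_neg (by omega)]
      · rw [if_neg h3]

/-! ### The factors of a polynomial -/

theorem card_factors_le (g : MvPolynomial (Fin r) K) (hg : g ≠ 0) :
    Multiset.card (UniqueFactorizationMonoid.factors g) ≤ g.totalDegree := by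
  have key : ∀ s : Multiset (MvPolynomial (Fin r) K), (∀ p ∈ s, Prime p) →
      s.prod ≠ 0 ∧ Multiset.card s ≤ s.prod.totalDegree := by
    intro s
    induction s using Multiset.induction_on with
    | empty => intro _; simp
    | cons p s ih =>
      intro h
      obtain ⟨h1, h2⟩ := ih fun q hq => h q (Multiset.mem_cons_of_mem hq)
      have hp := h p (Multiset.mem_cons_self p s)
      rw [Multiset.prod_cons, Multiset.card_cons,
        MvPolynomial.totalDegree_mul_of_isDomain hp.ne_zero h1]
      refine ⟨mul_ne_zero hp.ne_zero h1, ?_⟩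
      have h3 : 1 ≤ p.totalDegree := by
        by_contra h4
        have h5 : p.totalDegree = 0 := by omega
        rw [MvPolynomial.totalDegree_eq_zero_iff_eq_C] at h5
        have h6 : MvPolynomial.coeff 0 p ≠ 0 := by
          intro h7
          rw [h7, map_zero] at h5
          exact hp.ne_zero h5
        apply hp.not_isUnit
        rw [h5]
        exact (isUnit_iff_ne_zero.mpr h6).map MvPolynomial.C
      omega
  obtain ⟨h1, h2⟩ := key _ fun p hp => UniqueFactorizationMonoid.prime_of_factor p hp
  obtain ⟨u, hu⟩ := UniqueFactorizationMonoid.factors_prod hg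
  have h3 := congrArg MvPolynomial.totalDegree hu
  rw [MvPolynomial.totalDegree_mul_of_isDomain h1 u.ne_zero] at h3
  omega

end Pool.Agent.H54.ET.ST
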