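import Pool.Agent.H54.ET.STA

/-!
# T_STN: one step, everything or few proper subspaces
-/

open Polynomial Finset Filter

namespace Pool.Agent.H54.ET

open Pool.Agent.H72.BF Pool.Agent.H72.ET Pool.Agent.H35.BF.ST Pool.Agent.H54.ET.ST

/-- the subspaces for a prime of `K[t]` -/
private theorem prime_part (h2 : T_LFS) {K Ω : Type} [Field K] [Field Ω] {m r e : ℕ}
    (ψ : MvPolynomial (Fin r) K →+* Ω) (hψ : Function.Injective ψ) (ω : Fin e → Fin m → Ω) (g : Ω)
    (G : (MvPolynomial (Fin m) (MvPolynomial (Fin r) K))[X])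
    (hG : G.map (MvPolynomial.map ψ) = C (MvPolynomial.C g) * NN ω)
    (π : MvPolynomial (Fin r) K) (hπ : Prime π)
    (hprim : G.map (MvPolynomial.map (Ideal.Quotient.mk (Ideal.span {π}))) ≠ 0) :
    ∃ Hs : Finset (Submodule K (Fin m → K)), Hs.card ≤ e ∧ (∀ U ∈ Hs, U ≠ ⊤) ∧
      ∀ v : Fin m → K, (∀ n, π ∣ (Gw G v).coeff n) → ∃ U ∈ Hs, v ∈ U := by
  have hI : (Ideal.span {π} : Ideal (MvPolynomial (Fin r) K)).IsPrime :=
    (Ideal.span_singleton_prime hπ.ne_zero).mpr hπ
  have hdom : IsDomain (MvPolynomial (Fin r) K ⧸ (Ideal.span {π} : Ideal _)) :=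
    Ideal.Quotient.isDomain _
  let Q := MvPolynomial (Fin r) K ⧸ (Ideal.span {π} : Ideal (MvPolynomial (Fin r) K))
  let κ := FractionRing Q
  let φ : MvPolynomial (Fin r) K →ₐ[K] κ :=
    (IsScalarTower.toAlgHom K Q κ).comp (Ideal.Quotient.mkₐ K (Ideal.span {π}))
  have hφ : ∀ c, φ c = algebraMap Q κ (Ideal.Quotient.mk (Ideal.span {π}) c) := fun _ => rfl
  obtain ⟨Hs, hHs1, hHs2, hHs3⟩ := h2 K (MvPolynomial (Fin r) K) Ω κ ψ φ m e ω g G hψ hG (by
    intro h
    apply hprim
    ext n α
    have h3 := congrArg (fun P => MvPolynomial.coeff α (Polynomial.coeff P n)) h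
    simp only [Polynomial.coeff_map, MvPolynomial.coeff_map, Polynomial.coeff_zero,
      MvPolynomial.coeff_zero] at h3 ⊢
    apply IsFractionRing.injective Q κ
    rw [map_zero]
    exact h3)
  refine ⟨Hs, hHs1, hHs2, fun v hv => hHs3 v ?_⟩
  ext n : 1
  rw [Polynomial.coeff_map, ev_evA, Polynomial.coeff_zero, hφ]
  have h3 := hv n
  rw [Gw, Polynomial.coeff_map] at h3
  have h4 : π ∣ MvPolynomial.eval (fun j => algebraMap K (MvPolynomial (Fin r) K) (v j))
      (G.coeff n) := h3
  rw [Ideal.Quotient.eq_zero_iff_mem.mpr (Ideal.mem_span_singleton.mpr h4), map_zero]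

/-- the subspaces at infinity -/
private theorem inf_part (h2 : T_LFS) {K Ω : Type} [Field K] [Field Ω] {m r e : ℕ}
    (ψ : MvPolynomial (Fin r) K →+* Ω) (hψ : Function.Injective ψ) (ω : Fin e → Fin m → Ω) (g : Ω)
    (hg : g ≠ 0) (G : (MvPolynomial (Fin m) (MvPolynomial (Fin r) K))[X])
    (hG : G.map (MvPolynomial.map ψ) = C (MvPolynomial.C g) * NN ω) (T : ℕ)
    (hT : ∀ n α μ, ((G.coeff n).coeff α).coeff μ ≠ 0 → n + μ.degree ≤ T)
    (n1 : ℕ) (α1 : Fin m →₀ ℕ) (μ1 : Fin r →₀ ℕ) (h1 : n1 + μ1.degree = T)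
    (hne : ((G.coeff n1).coeff α1).coeff μ1 ≠ 0) :
    ∃ Hs : Finset (Submodule K (Fin m → K)), Hs.card ≤ e ∧ (∀ U ∈ Hs, U ≠ ⊤) ∧
      ∀ v : Fin m → K, (∀ n μ, n + μ.degree = T → ((Gw G v).coeff n).coeff μ = 0) →
        ∃ U ∈ Hs, v ∈ U := by
  classical
  let A := MvPolynomial (Fin r) K
  let Ω' := FractionRing (Polynomial Ω)
  let κ := FractionRing A
  let ι : Ω →+* Ω' := (algebraMap (Polynomial Ω) Ω').comp C
  let S : Ω' := algebraMap (Polynomial Ω) Ω' X
  have hinj : Function.Injective (algebraMap (Polynomial Ω) Ω') := IsFractionRing.injective _ _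
  have hS : S ≠ 0 := by
    intro h
    exact X_ne_zero (hinj (h.trans (map_zero _).symm))
  let ψ1 : A[X] →+* Ω' := (algebraMap (Polynomial Ω) Ω').comp ((Polynomial.mapRingHom ψ).comp θ)
  have hψ1 : Function.Injective ψ1 :=
    hinj.comp ((Polynomial.map_injective ψ hψ).comp θ_inj)
  have hψhm : ∀ (N : ℕ) (c : A), (∀ μ, c.coeff μ ≠ 0 → μ.degree ≤ N) →
      ψ1 (hm N c) = ι (ψ c) * S ^ N := by
    intro N c hc
    change algebraMap (Polynomial Ω) Ω' (Polynomial.map ψ (θ (hm N c))) = _
    rw [θ_hm N c hc, Polynomial.map_mul, Polynomial.map_C, Polynomial.map_pow, Polynomial.map_X,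
      map_mul, map_pow]
    rfl
  obtain ⟨G1, hG1⟩ := exists_cf G (fun n c => hm (T - n) c) (fun n => hm_zero _)
  have hNι : NN (fun i j => ι (ω i j)) = (NN ω).map (MvPolynomial.map ι) := by
    rw [NN, NN, Polynomial.map_prod]
    refine Finset.prod_congr rfl fun i _ => ?_
    rw [Polynomial.map_sub, Polynomial.map_X, Polynomial.map_C]
    congr 2
    rw [map_sum]
    refine Finset.sum_congr rfl fun j _ => ?_
    rw [map_mul, MvPolynomial.map_C, MvPolynomial.map_X]
  have hG1m : G1.map (MvPolynomial.map ψ1) =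
      C (MvPolynomial.C (ι g * S ^ T * S⁻¹ ^ e)) * NN (fun i j => S * ι (ω i j)) := by
    ext n α
    rw [Polynomial.coeff_map, MvPolynomial.coeff_map, hG1, coeff_C_mul, MvPolynomial.coeff_C_mul]
    have h3 := congrArg (MvPolynomial.coeff α)
      (NN_scale (fun i j => ι (ω i j)) S⁻¹ (inv_ne_zero hS) n)
    rw [MvPolynomial.coeff_C_mul, MvPolynomial.coeff_C_mul, hNι, Polynomial.coeff_map,
      MvPolynomial.coeff_map] at h3
    have hii : S⁻¹⁻¹ = S := inv_inv S
    rw [hii] at h3
    have h4 := congrArg (fun P => MvPolynomial.coeff α (Polynomial.coeff P n)) hG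
    simp only [Polynomial.coeff_map, MvPolynomial.coeff_map, coeff_C_mul,
      MvPolynomial.coeff_C_mul] at h4
    rw [mul_assoc (ι g * S ^ T), h3]
    by_cases h0 : (G.coeff n).coeff α = 0
    · rw [h0, map_zero] at h4
      rcases mul_eq_zero.mp h4.symm with h5 | h5
      · exact absurd h5 hg
      · rw [h5, h0, hm_zero, map_zero, map_zero]
        ring
    · have hnT : ∀ μ, ((G.coeff n).coeff α).coeff μ ≠ 0 → n + μ.degree ≤ T := hT n α
      obtain ⟨μ0, hμ0⟩ := MvPolynomial.ne_zero_iff.mp h0
      have h5 : n ≤ T := by have := hnT μ0 hμ0; omega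
      rw [hψhm _ _ (fun μ hμ => by have := hnT μ hμ; omega), h4, map_mul]
      have h6 : S ^ T = S ^ (T - n) * S ^ n := by rw [← pow_add]; congr 1; omega
      have h7 : S ^ n * S⁻¹ ^ n = 1 := by rw [← mul_pow, mul_inv_cancel₀ hS, one_pow]
      rw [h6]
      linear_combination (-(ι g) * S ^ (T - n) *
        ι (MvPolynomial.coeff α ((NN ω).coeff n))) * h7
  let φ : A[X] →ₐ[K] κ := (IsScalarTower.toAlgHom K A κ).comp
    ((Polynomial.aeval (0 : A) : A[X] →ₐ[A] A).restrictScalars K)
  have hφ : ∀ P : A[X], φ P = algebraMap A κ (P.coeff 0) := by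
    intro P
    change algebraMap A κ (Polynomial.aeval (0 : A) P) = _
    rw [← Polynomial.coeff_zero_eq_aeval_zero]
  have hφ0 : ∀ P : A[X], φ P = 0 ↔ P.coeff 0 = 0 := by
    intro P
    rw [hφ]
    constructor
    · intro h
      exact IsFractionRing.injective A κ (h.trans (map_zero _).symm)
    · intro h
      rw [h, map_zero]
  obtain ⟨Hs, hHs1, hHs2, hHs3⟩ := h2 K A[X] Ω' κ ψ1 φ m e (fun i j => S * ι (ω i j))
    (ι g * S ^ T * S⁻¹ ^ e) G1 hψ1 hG1m (by
      intro h
      have h3 := congrArg (fun P => MvPolynomial.coeff α1 (Polynomial.coeff P n1)) h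
      simp only [Polynomial.coeff_map, MvPolynomial.coeff_map, Polynomial.coeff_zero,
        MvPolynomial.coeff_zero, hG1] at h3
      have h4 := (hφ0 _).mp h3
      have h5 := congrArg (MvPolynomial.coeff μ1) h4
      rw [coeff_hm, if_pos (by omega), MvPolynomial.coeff_zero] at h5
      exact hne h5)
  refine ⟨Hs, hHs1, hHs2, fun v hv => hHs3 v ?_⟩
  ext n : 1
  rw [Polynomial.coeff_map, ev_evA, Polynomial.coeff_zero, hφ0]
  ext μ
  rw [MvPolynomial.coeff_zero]
  have h6 : MvPolynomial.coeff μ ((MvPolynomial.eval (fun j => algebraMap K A[X] (v j))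
      (G1.coeff n)).coeff 0) = ∑ α ∈ (G1.coeff n).support,
        MvPolynomial.coeff μ (((G1.coeff n).coeff α).coeff 0) * ∏ j, v j ^ α j := by
    rw [MvPolynomial.eval_eq', Polynomial.finsetSum_coeff, MvPolynomial.coeff_sum]
    refine Finset.sum_congr rfl fun α _ => ?_
    have h7 : (∏ j, (algebraMap K A[X] (v j)) ^ α j) =
        C (MvPolynomial.C (∏ j, v j ^ α j)) := by
      rw [map_prod, map_prod]
      refine Finset.prod_congr rfl fun j _ => ?_
      rw [map_pow, map_pow]
      rfl
    rw [h7, mul_comm, coeff_C_mul, MvPolynomial.coeff_C_mul, mul_comm]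
  rw [h6]
  by_cases hμ : T - n - μ.degree = 0
  · have h7 : (G1.coeff n).support ⊆ (G.coeff n).support := by
      intro α hα
      rw [MvPolynomial.mem_support_iff] at hα ⊢
      intro h
      apply hα
      rw [hG1, h, hm_zero]
    rw [Finset.sum_subset h7]
    · by_cases h8 : n + μ.degree = T
      · have h9 := hv n μ h8
        rw [coeff_Gw] at h9
        rw [← h9]
        refine Finset.sum_congr rfl fun α _ => ?_
        rw [hG1, coeff_hm, if_pos hμ]
      · refine Finset.sum_eq_zero fun α _ => ?_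
        have h9 : ((G.coeff n).coeff α).coeff μ = 0 := by
          by_contra h10
          have := hT n α μ h10
          omega
        rw [hG1, coeff_hm, if_pos hμ, h9, zero_mul]
    · intro α _ hα
      rw [MvPolynomial.notMem_support_iff.mp hα, Polynomial.coeff_zero, MvPolynomial.coeff_zero,
        zero_mul]
  · refine Finset.sum_eq_zero fun α _ => ?_
    rw [hG1, coeff_hm, if_neg hμ, zero_mul]

/-- one step: everything or few proper subspaces -/
theorem pf_STN (h1 : T_NRN) (h2 : T_LFS) (h3 : T_RNI) : T_STN := by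
  classical
  intro r d m
  obtain ⟨B, hB⟩ := h1 r d m
  refine ⟨B * B + B * B + B, ?_⟩
  intro K F _ _ _ _ _ t ht w hw
  obtain ⟨Ω, iΩ, iFΩ, e, ω, g, G, heB, hgB, hg0, ⟨i0, hi0⟩, hdist, hG, hprim, hroot⟩ :=
    hB K F t ht w hw
  have hevt : Function.Injective (evt t : MvPolynomial (Fin r) K →+* F) := ht
  let ψ : MvPolynomial (Fin r) K →+* Ω := (algebraMap F Ω).comp (evt t)
  have hψ : Function.Injective ψ := (algebraMap F Ω).injective.comp hevt
  have hG' : G.map (MvPolynomial.map ψ) = C (MvPolynomial.C (ψ g)) * NN ω := hG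
  have hψg : ψ g ≠ 0 := by
    intro h
    exact hg0 (hψ (by rw [h, map_zero]))
  let z : (Fin m → K) → Fin e → Ω := fun v i => ∑ j, algebraMap F Ω (algebraMap K F (v j)) * ω i j
  have hψC : ∀ c, ψ (MvPolynomial.C c) = algebraMap F Ω (algebraMap K F c) := by
    intro c
    change algebraMap F Ω (MvPolynomial.aeval t (MvPolynomial.C c)) = _
    rw [MvPolynomial.aeval_C]
  have hGv : ∀ v, (Gw G v).map ψ = C (ψ g) * ∏ i, (X - C (z v i)) := by
    intro v
    have h3 : (Gw G v).map ψ = (G.map (MvPolynomial.map ψ)).map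
        (MvPolynomial.eval (fun j => ψ (MvPolynomial.C (v j)))) := by
      rw [Gw, Polynomial.map_map, Polynomial.map_map]
      congr 1
      apply MvPolynomial.ringHom_ext
      · intro a; simp
      · intro a; simp
    rw [h3, hG', Polynomial.map_mul, Polynomial.map_C, MvPolynomial.eval_C, NN, Polynomial.map_prod]
    congr 1
    refine Finset.prod_congr rfl fun i _ => ?_
    rw [Polynomial.map_sub, Polynomial.map_X, Polynomial.map_C, map_sum]
    congr 2
    refine Finset.sum_congr rfl fun j _ => ?_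
    rw [map_mul, MvPolynomial.eval_C, MvPolynomial.eval_X, hψC, mul_comm]
  have hGe : G.coeff e = MvPolynomial.C g := by
    apply MvPolynomial.map_injective ψ hψ
    rw [← Polynomial.coeff_map, hG', coeff_C_mul]
    have h3 := (NN_monic ω).coeff_natDegree
    rw [NN_natDegree] at h3
    rw [h3, mul_one, MvPolynomial.map_C]
  have hGve : ∀ v, (Gw G v).coeff e = g := by
    intro v
    rw [Gw, Polynomial.coeff_map, hGe, MvPolynomial.eval_C]
  have hGv0 : ∀ v, Gw G v ≠ 0 := by
    intro v h
    have := hGve v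
    rw [h, Polynomial.coeff_zero] at this
    exact hg0 this.symm
  by_cases hcase : ∀ n α (μ : Fin r →₀ ℕ), d < n + μ.degree → ((G.coeff n).coeff α).coeff μ = 0
  · left
    intro v
    rw [h3]
    refine ⟨Gw G v, hGv0 v, ?_, ?_⟩
    · intro n μ hnμ
      rw [coeff_Gw]
      refine Finset.sum_eq_zero fun α _ => ?_
      rw [hcase n α μ hnμ, zero_mul]
    · apply (algebraMap F Ω).injective
      rw [map_zero, Polynomial.hom_eval₂]
      change (Gw G v).eval₂ ψ _ = 0
      rw [← eval_map, hGv, eval_mul, eval_prod]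
      rw [Finset.prod_eq_zero (Finset.mem_univ i0), mul_zero]
      rw [eval_sub, eval_X, eval_C, map_sum]
      simp only [z]
      rw [sub_eq_zero]
      refine Finset.sum_congr rfl fun j _ => ?_
      rw [map_mul, hi0]
  · right
    -- the maximal total degree
    have hbdd : ∃ T0, ∀ n α (μ : Fin r →₀ ℕ), ((G.coeff n).coeff α).coeff μ ≠ 0 →
        n + μ.degree ≤ T0 := by
      refine ⟨G.natDegree + ∑ n ∈ G.support, ∑ α ∈ (G.coeff n).support,
        ((G.coeff n).coeff α).totalDegree, ?_⟩
      intro n α μ hne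
      have h3 : G.coeff n ≠ 0 := by
        intro h; rw [h] at hne; simp at hne
      have h4 : (G.coeff n).coeff α ≠ 0 := by
        intro h; rw [h] at hne; simp at hne
      have h5 : n ≤ G.natDegree := le_natDegree_of_ne_zero h3
      have h6 : μ.degree ≤ ((G.coeff n).coeff α).totalDegree := by
        by_contra h
        push Not at h
        exact hne (MvPolynomial.coeff_eq_zero_of_totalDegree_lt h)
      have h7 : ((G.coeff n).coeff α).totalDegree ≤
          ∑ α ∈ (G.coeff n).support, ((G.coeff n).coeff α).totalDegree :=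
        Finset.single_le_sum (f := fun α => ((G.coeff n).coeff α).totalDegree)
          (fun _ _ => Nat.zero_le _) (MvPolynomial.mem_support_iff.mpr h4)
      have h8 : ∑ α ∈ (G.coeff n).support, ((G.coeff n).coeff α).totalDegree ≤
          ∑ n ∈ G.support, ∑ α ∈ (G.coeff n).support, ((G.coeff n).coeff α).totalDegree :=
        Finset.single_le_sum
          (f := fun n => ∑ α ∈ (G.coeff n).support, ((G.coeff n).coeff α).totalDegree)
          (fun _ _ => Nat.zero_le _) (Polynomial.mem_support_iff.mpr h3)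
      omega
    push Not at hcase
    obtain ⟨T, hTmax, hdT, n1, α1, μ1, hnk1, hne1⟩ : ∃ T,
        (∀ n α (μ : Fin r →₀ ℕ), ((G.coeff n).coeff α).coeff μ ≠ 0 → n + μ.degree ≤ T) ∧ d < T ∧
        ∃ n1 α1, ∃ μ1 : Fin r →₀ ℕ, n1 + μ1.degree = T ∧
          ((G.coeff n1).coeff α1).coeff μ1 ≠ 0 := by
      obtain ⟨n0, α0, μ0, hd0, hne0⟩ := hcase
      refine ⟨Nat.find hbdd, Nat.find_spec hbdd, ?_, ?_⟩
      · exact lt_of_lt_of_le hd0 (Nat.find_spec hbdd n0 α0 μ0 hne0)
      · by_contra hcon
        push Not at hcon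
        have hpos : 0 < Nat.find hbdd := lt_of_le_of_lt (Nat.zero_le d)
          (lt_of_lt_of_le hd0 (Nat.find_spec hbdd n0 α0 μ0 hne0))
        refine Nat.find_min hbdd (m := Nat.find hbdd - 1) (by omega) ?_
        intro n α μ hne
        have h3 := Nat.find_spec hbdd n α μ hne
        have h4 : n + μ.degree ≠ Nat.find hbdd := fun h => hne (hcon n α μ h)
        omega
    -- the primes
    have hc1 : ∀ π : MvPolynomial (Fin r) K, ∃ Hs : Finset (Submodule K (Fin m → K)),
        Prime π → Hs.card ≤ e ∧ (∀ U ∈ Hs, U ≠ ⊤) ∧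
        ∀ v : Fin m → K, (∀ n, π ∣ (Gw G v).coeff n) → ∃ U ∈ Hs, v ∈ U := by
      intro π
      by_cases hπ : Prime π
      · obtain ⟨Hs, h⟩ := prime_part h2 ψ hψ ω (ψ g) G hG' π hπ (hprim π hπ)
        exact ⟨Hs, fun _ => h⟩
      · exact ⟨∅, fun h => absurd h hπ⟩
    choose Hc hc using hc1
    -- infinity
    obtain ⟨Hz, hinf1, hinf2, hinf3⟩ := inf_part h2 ψ hψ ω (ψ g) hψg G hG' T hTmax n1 α1 μ1
      hnk1 hne1
    -- conjugates
    let Ub : Fin e × Fin e → Submodule K (Fin m → K) := fun p =>
      { carrier := {v | z v p.1 = z v p.2}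
        add_mem' := by
          intro v v' hv hv'
          change z (v + v') p.1 = z (v + v') p.2
          have hv1 : z v p.1 = z v p.2 := hv
          have hv2 : z v' p.1 = z v' p.2 := hv'
          have hadd : ∀ i, z (v + v') i = z v i + z v' i := by
            intro i
            simp only [z, Pi.add_apply, map_add, add_mul, Finset.sum_add_distrib]
          rw [hadd, hadd, hv1, hv2]
        zero_mem' := by
          change z 0 p.1 = z 0 p.2
          simp [z]
        smul_mem' := by
          intro c v hv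
          change z (c • v) p.1 = z (c • v) p.2
          have hv1 : z v p.1 = z v p.2 := hv
          have hsm : ∀ i, z (c • v) i = algebraMap F Ω (algebraMap K F c) * z v i := by
            intro i
            simp only [z, Pi.smul_apply, smul_eq_mul, map_mul, Finset.mul_sum, mul_assoc]
          rw [hsm, hsm, hv1] }
    let Hb : Finset (Submodule K (Fin m → K)) :=
      ((Finset.univ : Finset (Fin e × Fin e)).filter fun p => p.1 ≠ p.2).image Ub
    let fs := (UniqueFactorizationMonoid.factors g).toFinset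
    have hfs : ∀ π ∈ fs, Prime π := fun π hπ =>
      UniqueFactorizationMonoid.prime_of_factor π (Multiset.mem_toFinset.mp hπ)
    refine ⟨Hb ∪ fs.biUnion Hc ∪ Hz, ?_, ?_, ?_⟩
    · have hb : Hb.card ≤ B * B := by
        refine le_trans Finset.card_image_le (le_trans (Finset.card_filter_le _ _) ?_)
        rw [Finset.card_univ, Fintype.card_prod, Fintype.card_fin]
        exact Nat.mul_le_mul heB heB
      have hc' : (fs.biUnion Hc).card ≤ B * B := by
        refine le_trans (Finset.card_biUnion_le_card_mul _ _ e fun π hπ => (hc π (hfs π hπ)).1) ?_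
        exact Nat.mul_le_mul (le_trans (Multiset.toFinset_card_le _)
          (le_trans (card_factors_le g hg0) hgB)) heB
      have h3 := Finset.card_union_le (Hb ∪ fs.biUnion Hc) Hz
      have h4 := Finset.card_union_le Hb (fs.biUnion Hc)
      omega
    · intro U hU
      rcases Finset.mem_union.mp hU with hU | hU
      · rcases Finset.mem_union.mp hU with hU | hU
        · obtain ⟨p, hp, rfl⟩ := Finset.mem_image.mp hU
          have hne := (Finset.mem_filter.mp hp).2
          intro htop
          apply hdist p.1 p.2 hne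
          ext j
          have h3 : (Pi.single j 1 : Fin m → K) ∈ Ub p := by rw [htop]; trivial
          have h4 : z (Pi.single j 1) p.1 = z (Pi.single j 1) p.2 := h3
          have h5 : ∀ i, z (Pi.single j 1) i = ω i j := by
            intro i
            simp only [z]
            rw [Finset.sum_eq_single j]
            · rw [Pi.single_eq_same, map_one, map_one, one_mul]
            · intro b _ hb
              rw [Pi.single_eq_of_ne hb, map_zero, map_zero, zero_mul]
            · intro h; exact absurd (Finset.mem_univ _) h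
          rw [h5, h5] at h4
          exact h4
        · obtain ⟨π, hπ, hU'⟩ := Finset.mem_biUnion.mp hU
          exact (hc π (hfs π hπ)).2.1 U hU'
      · exact hinf2 U hU
    · intro v hv
      by_cases hzinj : Function.Injective (z v)
      · by_cases hP : (Gw G v).IsPrimitive
        · obtain ⟨Q, hQ0, hQd, hQr⟩ := (h3 K F r t d _).mp hv
          have h4 : Gw G v ∣ Q :=
            dvd_of_rootsA ψ hψ (z v) hzinj (ψ g) hψg (Gw G v) Q hP (hGv v) (hroot v Q hQr)
          have h5 : TDr (Gw G v) d := tdr_of_dvd hQ0 h4 hQd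
          obtain ⟨U, hU, hvU⟩ := hinf3 v (fun n μ hn => h5 n μ (by omega))
          exact ⟨U, Finset.mem_union_right _ hU, hvU⟩
        · -- not primitive
          rw [Polynomial.IsPrimitive] at hP
          push Not at hP
          obtain ⟨s, hs, hsu⟩ := hP
          have hsd := (Polynomial.C_dvd_iff_dvd_coeff s (Gw G v)).mp hs
          have hs0 : s ≠ 0 := by
            rintro rfl
            have := hsd e
            rw [hGve, zero_dvd_iff] at this
            exact hg0 this
          obtain ⟨π0, hπ0, hπs⟩ := WfDvdMonoid.exists_irreducible_factor hsu hs0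
          obtain ⟨π, hπ, hass⟩ := UniqueFactorizationMonoid.exists_mem_factors_of_dvd hg0 hπ0
            (hπs.trans (by have := hsd e; rwa [hGve] at this))
          have hπ' : π ∈ fs := Multiset.mem_toFinset.mpr hπ
          obtain ⟨U, hU, hvU⟩ := (hc π (hfs π hπ')).2.2 v (fun n =>
            (hass.symm.dvd.trans hπs).trans (hsd n))
          exact ⟨U, Finset.mem_union_left _ (Finset.mem_union_right _
            (Finset.mem_biUnion.mpr ⟨π, hπ', hU⟩)), hvU⟩
      · rw [Function.Injective] at hzinj
        push Not at hzinj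
        obtain ⟨i, i', hii, hne⟩ := hzinj
        refine ⟨Ub (i, i'), Finset.mem_union_left _ (Finset.mem_union_left _
          (Finset.mem_image_of_mem _ (Finset.mem_filter.mpr ⟨Finset.mem_univ _, hne⟩))), ?_⟩
        exact hii

end Pool.Agent.H54.ET
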